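import Pool.Agent.H529.G.Data

/-! Traversals: bounds of the arrays. -/

namespace Pool.Agent.H529.G

open Pool.Agent.H95R2.BG.Cert (look)
open Pool.Agent.H529.D Pool.Agent.H529.F

theorem chkA0 : Nat.ble (gen 0 (fun c => Nat.add (Nat.mul (g c) (g c)) 1) 16 0) 2854613929 = true := by decide +kernel
theorem chkA1 : Nat.ble (gen 0 (fun c => Nat.mul (Nat.add (Nat.mul (g c) (g c)) 1) (ph c)) 16 0) 23076660116 = true := by decide +kernel
theorem chkA2 : Nat.ble (gen 0 (fun c => Nat.mul (Nat.add (Nat.mul (g c) (g c)) 1) (Nat.mul (ph c) (ph c))) 16 0) 4157194501868 = true := by decide +kernel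
theorem chkG : Nat.beq (gen 0 (fun n => cond (Nat.ble (g n) 3078) (cond (Nat.ble (ph n) 953) (cond (Nat.ble (h0 n) 262144) (cond (Nat.ble (h1 n) 262144) 0 1) 1) 1) 1) 16 0) 0 = true := by decide +kernel

end Pool.Agent.H529.G
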