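import Pool.Agent.H529.G.Data

/-! Traversals: the digits of the correlations. -/

namespace Pool.Agent.H529.G

open Pool.Agent.H95R2.BG.Cert (look)
open Pool.Agent.H529.D Pool.Agent.H529.F

theorem chkY : Nat.beq (genr 0 64 (fun _ a b => cond (Nat.ble b a) 0 1) 16 0 (AP 64 16 g h0 65536 4194240) (AM 64 16 g ph h1 65536 4194240)) 0 = true := by decide +kernel
theorem chkZ : Nat.beq (genr 0 64 (fun _ a b => cond (Nat.ble a 1099511627776) (cond (Nat.ble b 4294967296) 0 1) 1) 16 0 YD ZD) 0 = true := by decide +kernel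

end Pool.Agent.H529.G
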