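import Pool.Agent.H529.G.Ev0

namespace Pool.Agent.H529.G

open Pool.Agent.H529.D Pool.Agent.H529.F

theorem ev9 : Nat.ble (LP 1536 64 100663296 100661760 16 ph (vwq g A9 B9 1201) (wdif TM 22 16 3839 432 60078 43 0 30) YD ZD)
    (Nat.add (LM 1536 64 100663296 100661760 16 ph (vwq g A9 B9 1201) (wdif TM 22 16 3839 432 60078 43 0 30) YD ZD) c9) = true := by decide +kernel

end Pool.Agent.H529.G
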