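import Mathlib
import Pool.Agent.H529.D.Pack
import Pool.Agent.H529.F.FX
import Pool.Agent.H529.F.FA
import Pool.Agent.H529.G.Data

/-! Conversions -/

set_option autoImplicit false

open Finset

namespace Pool.Agent.H529.G

open Pool.Agent.H95R2.BG.Cert (look pk nrm)
open Pool.Agent.H529.D Pool.Agent.H529.F

theorem cv {x y c : ℕ} (h : Nat.ble x (Nat.add y c) = true) : x ≤ y + c := Nat.le_of_ble_eq_true h

theorem cv1 {x c : ℕ} (h : Nat.ble x c = true) : x ≤ c := Nat.le_of_ble_eq_true h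

theorem cv0 {x : ℕ} (h : Nat.beq x 0 = true) : x = 0 := Nat.eq_of_beq_eq_true h

theorem cv3 {a b v c d : ℕ} (h : Nat.ble (Nat.add (Nat.add a b) v) (Nat.add c d) = true) : a + b + v ≤ c + d :=
  Nat.le_of_ble_eq_true h

theorem cvC {c C a b n : ℕ} (h : Nat.ble (Nat.mul c (Nat.pow a n)) (Nat.mul C (Nat.pow b n)) = true) :
    c * a ^ n ≤ C * b ^ n := Nat.le_of_ble_eq_true h

theorem gen0 (f : ℕ → ℕ) (D : ℕ) : gen 0 f D 0 = ∑ i ∈ range (2 ^ D), f i := by
  rw [Pack.arr.1 0 D f]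
  exact FX.pk_zero_base _ _

theorem gen0_zero {f : ℕ → ℕ} {D : ℕ} (h : Nat.beq (gen 0 f D 0) 0 = true) : ∀ i, i < 2 ^ D → f i = 0 := by
  have h1 : gen 0 f D 0 = 0 := Nat.eq_of_beq_eq_true h
  rw [gen0] at h1
  exact fun i hi => (Finset.sum_eq_zero_iff.1 h1) i (Finset.mem_range.2 hi)

theorem cond_ble {a b x : ℕ} (h : cond (Nat.ble a b) x 1 = 0) : a ≤ b ∧ x = 0 := by
  by_cases hab : Nat.ble a b = true
  · rw [hab] at h
    exact ⟨Nat.le_of_ble_eq_true hab, h⟩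
  · rw [Bool.not_eq_true] at hab
    rw [hab] at h
    exact absurd h one_ne_zero


end Pool.Agent.H529.G
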