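import Pool.Agent.H529.G.Fin0
import Pool.Agent.H529.G.Chk

/-! Bounds of the arrays -/

set_option autoImplicit false

open Finset

namespace Pool.Agent.H529.G

open Pool.Agent.H95R2.BG.Cert (look pk nrm)
open Pool.Agent.H529.D Pool.Agent.H529.F

attribute [local irreducible] gen genr

theorem g_zero : ∀ c, 39951 ≤ c → g c = 0 := by
  intro c hc
  have h : Nat.ble (Nat.add c 1) 39951 = false := by
    rw [Bool.eq_false_iff]
    intro h1
    have := Nat.le_of_ble_eq_true h1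
    rw [Nat.add_eq] at this
    omega
  unfold g
  rw [h]
  rfl

theorem bounds : ∀ n, n < 2 ^ 16 → g n ≤ 3078 ∧ ph n ≤ 953 ∧ h0 n ≤ 262144 ∧ h1 n ≤ 262144 := by
  intro n hn
  have h := gen0_zero chkG n hn
  obtain ⟨a1, a2⟩ := cond_ble h
  obtain ⟨b1, b2⟩ := cond_ble a2
  obtain ⟨d1, d2⟩ := cond_ble b2
  obtain ⟨e1, -⟩ := cond_ble d2
  exact ⟨a1, b1, d1, e1⟩

theorem nrm_mk (n : ℕ) (f : ℕ → ℕ) : nrm n (PowerSeries.mk f) = ∑ i ∈ range n, f i := FA.nrm_mk n f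

theorem n_A0 : nrm (2 ^ 16) (Ps (fun c => g c * g c + 1)) ≤ 2854613929 := by
  unfold Ps
  rw [nrm_mk, ← gen0]
  have h := cv1 chkA0
  exact h

theorem n_A1 : nrm (2 ^ 16) (Ps1 ph (fun c => g c * g c + 1)) ≤ 23076660116 := by
  unfold Ps1
  rw [nrm_mk, ← gen0]
  have h := cv1 chkA1
  exact h

theorem n_A2 : nrm (2 ^ 16) (Ps2 ph (fun c => g c * g c + 1)) ≤ 4157194501868 := by
  unfold Ps2
  rw [nrm_mk, ← gen0]
  have h := cv1 chkA2
  exact h


end Pool.Agent.H529.G
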