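import Pool.Agent.H529.G.Data

/-! The tables of the tilts and the bounds `C`. -/

namespace Pool.Agent.H529.G

open Pool.Agent.H95R2.BG.Cert (look)
open Pool.Agent.H529.D Pool.Agent.H529.F

noncomputable def tA (A nn : Nat) : Nat := gen 0 (fun i =>
  cond (Nat.ble (Nat.mul 4194304 (Nat.pow nn (Nat.add i 1))) (Nat.mul (look A 24 i) (Nat.pow 16777216 (Nat.add i 1))))
    (cond (Nat.ble (look A 24 i) 4194304) 0 1) 1) 6 0

noncomputable def tB (B X nn : Nat) : Nat := gen 0 (fun j =>
  cond (Nat.ble X (Nat.mul 64 j)) 0
    (cond (Nat.ble (Nat.mul 4194304 (Nat.pow nn (Nat.mul 64 j))) (Nat.mul (look B 24 j) (Nat.pow 16777216 (Nat.mul 64 j))))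
      (cond (Nat.ble (look B 24 j) 4194304) 0 1) 1)) 9 0

noncomputable def okC (c C nn nf : Nat) : Bool :=
  Nat.ble (Nat.mul c (Nat.pow 16777216 nf)) (Nat.mul C (Nat.pow nn nf))

theorem tA0 : Nat.beq (tA A0 16162295) 0 = true := by decide +kernel
theorem tB0 : Nat.beq (tB B0 78 16162295) 0 = true := by decide +kernel
theorem tC0 : okC c0 C0 16162295 69 = true := by decide +kernel
theorem tA1 : Nat.beq (tA A1 16345039) 0 = true := by decide +kernel
theorem tB1 : Nat.beq (tB B1 108 16345039) 0 = true := by decide +kernel
theorem tC1 : okC c1 C1 16345039 134 = true := by decide +kernel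
theorem tA2 : Nat.beq (tA A2 16470736) 0 = true := by decide +kernel
theorem tB2 : Nat.beq (tB B2 156 16470736) 0 = true := by decide +kernel
theorem tC2 : okC c2 C2 16470736 260 = true := by decide +kernel
theorem tA3 : Nat.beq (tA A3 16445475) 0 = true := by decide +kernel
theorem tB3 : Nat.beq (tB B3 240 16445475) 0 = true := by decide +kernel
theorem tC3 : okC c3 C3 16445475 307 = true := by decide +kernel
theorem tA4 : Nat.beq (tA A4 16547063) 0 = true := by decide +kernel
theorem tB4 : Nat.beq (tB B4 240 16547063) 0 = true := by decide +kernel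
theorem tC4 : okC c4 C4 16547063 485 = true := by decide +kernel
theorem tA5 : Nat.beq (tA A5 16603251) 0 = true := by decide +kernel
theorem tB5 : Nat.beq (tB B5 390 16603251) 0 = true := by decide +kernel
theorem tC5 : okC c5 C5 16603251 891 = true := by decide +kernel
theorem tA6 : Nat.beq (tA A6 16633078) 0 = true := by decide +kernel
theorem tB6 : Nat.beq (tB B6 660 16633078) 0 = true := by decide +kernel
theorem tC6 : okC c6 C6 16633078 1443 = true := by decide +kernel
theorem tA7 : Nat.beq (tA A7 16654975) 0 = true := by decide +kernel
theorem tB7 : Nat.beq (tB B7 660 16654975) 0 = true := by decide +kernel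
theorem tC7 : okC c7 C7 16654975 1702 = true := by decide +kernel
theorem tA8 : Nat.beq (tA A8 16651609) 0 = true := by decide +kernel
theorem tB8 : Nat.beq (tB B8 1201 16651609) 0 = true := by decide +kernel
theorem tC8 : okC c8 C8 16651609 2162 = true := by decide +kernel
theorem tA9 : Nat.beq (tA A9 16701528) 0 = true := by decide +kernel
theorem tB9 : Nat.beq (tB B9 1201 16701528) 0 = true := by decide +kernel
theorem tC9 : okC c9 C9 16701528 3324 = true := by decide +kernel
theorem tA10 : Nat.beq (tA A10 16681954) 0 = true := by decide +kernel
theorem tB10 : Nat.beq (tB B10 2282 16681954) 0 = true := by decide +kernel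
theorem tC10 : okC c10 C10 16681954 3327 = true := by decide +kernel
theorem tA11 : Nat.beq (tA A11 16730512) 0 = true := by decide +kernel
theorem tB11 : Nat.beq (tB B11 2282 16730512) 0 = true := by decide +kernel
theorem tC11 : okC c11 C11 16730512 5568 = true := by decide +kernel
theorem tA12 : Nat.beq (tA A12 16706893) 0 = true := by decide +kernel
theorem tB12 : Nat.beq (tB B12 4205 16706893) 0 = true := by decide +kernel
theorem tC12 : okC c12 C12 16706893 4679 = true := by decide +kernel
theorem tA13 : Nat.beq (tA A13 16747980) 0 = true := by decide +kernel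
theorem tB13 : Nat.beq (tB B13 4205 16747980) 0 = true := by decide +kernel
theorem tC13 : okC c13 C13 16747980 8272 = true := by decide +kernel
theorem tA14 : Nat.beq (tA A14 16717285) 0 = true := by decide +kernel
theorem tB14 : Nat.beq (tB B14 6908 16717285) 0 = true := by decide +kernel
theorem tC14 : okC c14 C14 16717285 5580 = true := by decide +kernel
theorem tA15 : Nat.beq (tA A15 16753875) 0 = true := by decide +kernel
theorem tB15 : Nat.beq (tB B15 6908 16753875) 0 = true := by decide +kernel
theorem tC15 : okC c15 C15 16753875 10074 = true := by decide +kernel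
theorem tA16 : Nat.beq (tA A16 16726346) 0 = true := by decide +kernel
theorem tB16 : Nat.beq (tB B16 8711 16726346) 0 = true := by decide +kernel
theorem tC16 : okC c16 C16 16726346 6391 = true := by decide +kernel
theorem tA17 : Nat.beq (tA A17 16758327) 0 = true := by decide +kernel
theorem tB17 : Nat.beq (tB B17 8711 16758327) 0 = true := by decide +kernel
theorem tC17 : okC c17 C17 16758327 11696 = true := by decide +kernel
theorem tA18 : Nat.beq (tA A18 16742789) 0 = true := by decide +kernel
theorem tB18 : Nat.beq (tB B18 10333 16742789) 0 = true := by decide +kernel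
theorem tC18 : okC c18 C18 16742789 8391 = true := by decide +kernel
theorem tA19 : Nat.beq (tA A19 16760533) 0 = true := by decide +kernel
theorem tB19 : Nat.beq (tB B19 10333 16760533) 0 = true := by decide +kernel
theorem tC19 : okC c19 C19 16760533 12805 = true := by decide +kernel
theorem tA20 : Nat.beq (tA A20 16746217) 0 = true := by decide +kernel
theorem tB20 : Nat.beq (tB B20 12616 16746217) 0 = true := by decide +kernel
theorem tC20 : okC c20 C20 16746217 9234 = true := by decide +kernel
theorem tA21 : Nat.beq (tA A21 16747565) 0 = true := by decide +kernel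
theorem tB21 : Nat.beq (tB B21 15620 16747565) 0 = true := by decide +kernel
theorem tC21 : okC c21 C21 16747565 9693 = true := by decide +kernel
theorem tA22 : Nat.beq (tA A22 16752812) 0 = true := by decide +kernel
theorem tB22 : Nat.beq (tB B22 15620 16752812) 0 = true := by decide +kernel
theorem tC22 : okC c22 C22 16752812 11036 = true := by decide +kernel
theorem tA23 : Nat.beq (tA A23 16753775) 0 = true := by decide +kernel
theorem tB23 : Nat.beq (tB B23 19224 16753775) 0 = true := by decide +kernel
theorem tC23 : okC c23 C23 16753775 11645 = true := by decide +kernel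
theorem tA24 : Nat.beq (tA A24 16758381) 0 = true := by decide +kernel
theorem tB24 : Nat.beq (tB B24 19224 16758381) 0 = true := by decide +kernel
theorem tC24 : okC c24 C24 16758381 12989 = true := by decide +kernel
theorem tA25 : Nat.beq (tA A25 16759170) 0 = true := by decide +kernel
theorem tB25 : Nat.beq (tB B25 23130 16759170) 0 = true := by decide +kernel
theorem tC25 : okC c25 C25 16759170 12175 = true := by decide +kernel
theorem tA26 : Nat.beq (tA A26 16762543) 0 = true := by decide +kernel
theorem tB26 : Nat.beq (tB B26 23130 16762543) 0 = true := by decide +kernel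
theorem tC26 : okC c26 C26 16762543 13436 = true := by decide +kernel

end Pool.Agent.H529.G
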