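import Pool.Agent.H529.G.Fin0
import Pool.Agent.H529.G.Lev
import Pool.Agent.H529.G.Tilt

/-! Tilts -/

set_option autoImplicit false

open Finset

namespace Pool.Agent.H529.G

open Pool.Agent.H95R2.BG.Cert (look pk nrm)
open Pool.Agent.H529.D Pool.Agent.H529.F

attribute [local irreducible] gen genr

theorem tilt_ok {A B X nn : ℕ} (hA : Nat.beq (tA A nn) 0 = true) (hB : Nat.beq (tB B X nn) 0 = true) (hX : X ≤ 32768) :
    (∀ i, i < 64 → 4194304 * nn ^ (i + 1) ≤ look A 24 i * 16777216 ^ (i + 1)) ∧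
    (∀ j, 64 * j < X → 4194304 * nn ^ (64 * j) ≤ look B 24 j * 16777216 ^ (64 * j)) ∧
    (∀ i, i < 64 → look A 24 i ≤ 4194304) ∧ (∀ j, 64 * j < X → look B 24 j ≤ 4194304) := by
  have key : ∀ j, 64 * j < X → 4194304 * nn ^ (64 * j) ≤ look B 24 j * 16777216 ^ (64 * j) ∧ look B 24 j ≤ 4194304 := by
    intro j hj
    have h := gen0_zero hB j (by norm_num; omega)
    have h2 : Nat.ble X (Nat.mul 64 j) = false := by
      rw [Bool.eq_false_iff]
      intro h1
      have := Nat.le_of_ble_eq_true h1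
      rw [Nat.mul_eq] at this
      omega
    rw [h2] at h
    obtain ⟨a1, a2⟩ := cond_ble h
    obtain ⟨b1, -⟩ := cond_ble a2
    exact ⟨a1, b1⟩
  have keyA : ∀ i, i < 64 → 4194304 * nn ^ (i + 1) ≤ look A 24 i * 16777216 ^ (i + 1) ∧ look A 24 i ≤ 4194304 := by
    intro i hi
    have h := gen0_zero hA i (by norm_num; omega)
    obtain ⟨a1, a2⟩ := cond_ble h
    obtain ⟨b1, -⟩ := cond_ble a2
    exact ⟨a1, b1⟩
  exact ⟨fun i hi => (keyA i hi).1, fun j hj => (key j hj).1, fun i hi => (keyA i hi).2, fun j hj => (key j hj).2⟩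

theorem tilts_aux (e : Ed) (A B X nn : ℕ) (h1 : e.A = A) (h2 : e.B = B) (h3 : e.X = X) (h4 : e.nn = nn)
    (hA : Nat.beq (tA A nn) 0 = true) (hB : Nat.beq (tB B X nn) 0 = true) (hX : X ≤ 32768) (h5 : 0 < nn)
    (h6 : nn ≤ 16777216) : 0 < e.nn ∧ e.nn ≤ 16777216 ∧
      (∀ i, i < 64 → 4194304 * e.nn ^ (i + 1) ≤ look e.A 24 i * 16777216 ^ (i + 1)) ∧
      (∀ j, 64 * j < e.X → 4194304 * e.nn ^ (64 * j) ≤ look e.B 24 j * 16777216 ^ (64 * j)) ∧
      (∀ i, i < 64 → look e.A 24 i ≤ 4194304) ∧ (∀ j, 64 * j < e.X → look e.B 24 j ≤ 4194304) := by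
  subst h1 h2 h3 h4
  exact ⟨h5, h6, tilt_ok hA hB hX⟩

theorem tilts : ∀ e ∈ evs, 0 < e.nn ∧ e.nn ≤ 16777216 ∧
      (∀ i, i < 64 → 4194304 * e.nn ^ (i + 1) ≤ look e.A 24 i * 16777216 ^ (i + 1)) ∧
      (∀ j, 64 * j < e.X → 4194304 * e.nn ^ (64 * j) ≤ look e.B 24 j * 16777216 ^ (64 * j)) ∧
      (∀ i, i < 64 → look e.A 24 i ≤ 4194304) ∧ (∀ j, 64 * j < e.X → look e.B 24 j ≤ 4194304) := by
  intro e he
  unfold evs at he
  simp only [List.mem_cons, List.not_mem_nil, or_false] at he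
  rcases he with he | he | he | he | he | he | he | he | he | he | he | he | he | he | he | he | he | he | he | he | he | he | he | he | he | he | he
  · rw [he]
    exact tilts_aux _ A0 B0 78 16162295 rfl rfl rfl rfl tA0 tB0 (by norm_num) (by norm_num) (by norm_num)
  · rw [he]
    exact tilts_aux _ A1 B1 108 16345039 rfl rfl rfl rfl tA1 tB1 (by norm_num) (by norm_num) (by norm_num)
  · rw [he]
    exact tilts_aux _ A2 B2 156 16470736 rfl rfl rfl rfl tA2 tB2 (by norm_num) (by norm_num) (by norm_num)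
  · rw [he]
    exact tilts_aux _ A3 B3 240 16445475 rfl rfl rfl rfl tA3 tB3 (by norm_num) (by norm_num) (by norm_num)
  · rw [he]
    exact tilts_aux _ A4 B4 240 16547063 rfl rfl rfl rfl tA4 tB4 (by norm_num) (by norm_num) (by norm_num)
  · rw [he]
    exact tilts_aux _ A5 B5 390 16603251 rfl rfl rfl rfl tA5 tB5 (by norm_num) (by norm_num) (by norm_num)
  · rw [he]
    exact tilts_aux _ A6 B6 660 16633078 rfl rfl rfl rfl tA6 tB6 (by norm_num) (by norm_num) (by norm_num)
  · rw [he]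
    exact tilts_aux _ A7 B7 660 16654975 rfl rfl rfl rfl tA7 tB7 (by norm_num) (by norm_num) (by norm_num)
  · rw [he]
    exact tilts_aux _ A8 B8 1201 16651609 rfl rfl rfl rfl tA8 tB8 (by norm_num) (by norm_num) (by norm_num)
  · rw [he]
    exact tilts_aux _ A9 B9 1201 16701528 rfl rfl rfl rfl tA9 tB9 (by norm_num) (by norm_num) (by norm_num)
  · rw [he]
    exact tilts_aux _ A10 B10 2282 16681954 rfl rfl rfl rfl tA10 tB10 (by norm_num) (by norm_num) (by norm_num)
  · rw [he]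
    exact tilts_aux _ A11 B11 2282 16730512 rfl rfl rfl rfl tA11 tB11 (by norm_num) (by norm_num) (by norm_num)
  · rw [he]
    exact tilts_aux _ A12 B12 4205 16706893 rfl rfl rfl rfl tA12 tB12 (by norm_num) (by norm_num) (by norm_num)
  · rw [he]
    exact tilts_aux _ A13 B13 4205 16747980 rfl rfl rfl rfl tA13 tB13 (by norm_num) (by norm_num) (by norm_num)
  · rw [he]
    exact tilts_aux _ A14 B14 6908 16717285 rfl rfl rfl rfl tA14 tB14 (by norm_num) (by norm_num) (by norm_num)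
  · rw [he]
    exact tilts_aux _ A15 B15 6908 16753875 rfl rfl rfl rfl tA15 tB15 (by norm_num) (by norm_num) (by norm_num)
  · rw [he]
    exact tilts_aux _ A16 B16 8711 16726346 rfl rfl rfl rfl tA16 tB16 (by norm_num) (by norm_num) (by norm_num)
  · rw [he]
    exact tilts_aux _ A17 B17 8711 16758327 rfl rfl rfl rfl tA17 tB17 (by norm_num) (by norm_num) (by norm_num)
  · rw [he]
    exact tilts_aux _ A18 B18 10333 16742789 rfl rfl rfl rfl tA18 tB18 (by norm_num) (by norm_num) (by norm_num)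
  · rw [he]
    exact tilts_aux _ A19 B19 10333 16760533 rfl rfl rfl rfl tA19 tB19 (by norm_num) (by norm_num) (by norm_num)
  · rw [he]
    exact tilts_aux _ A20 B20 12616 16746217 rfl rfl rfl rfl tA20 tB20 (by norm_num) (by norm_num) (by norm_num)
  · rw [he]
    exact tilts_aux _ A21 B21 15620 16747565 rfl rfl rfl rfl tA21 tB21 (by norm_num) (by norm_num) (by norm_num)
  · rw [he]
    exact tilts_aux _ A22 B22 15620 16752812 rfl rfl rfl rfl tA22 tB22 (by norm_num) (by norm_num) (by norm_num)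
  · rw [he]
    exact tilts_aux _ A23 B23 19224 16753775 rfl rfl rfl rfl tA23 tB23 (by norm_num) (by norm_num) (by norm_num)
  · rw [he]
    exact tilts_aux _ A24 B24 19224 16758381 rfl rfl rfl rfl tA24 tB24 (by norm_num) (by norm_num) (by norm_num)
  · rw [he]
    exact tilts_aux _ A25 B25 23130 16759170 rfl rfl rfl rfl tA25 tB25 (by norm_num) (by norm_num) (by norm_num)
  · rw [he]
    exact tilts_aux _ A26 B26 23130 16762543 rfl rfl rfl rfl tA26 tB26 (by norm_num) (by norm_num) (by norm_num)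

theorem okC_le {c C nn nf : ℕ} (h : okC c C nn nf = true) : c * 16777216 ^ nf ≤ C * nn ^ nf := cvC h

theorem bC_aux (e : Ed) (c C nn nf : ℕ) (h1 : e.c = c) (h2 : e.C = C) (h3 : e.nn = nn) (h4 : e.nf = nf)
    (h : okC c C nn nf = true) : e.c * 16777216 ^ e.nf ≤ e.C * e.nn ^ e.nf := by
  subst h1 h2 h3 h4
  exact okC_le h

theorem bC : ∀ e ∈ evs, e.c * 16777216 ^ e.nf ≤ e.C * e.nn ^ e.nf := by
  intro e he
  unfold evs at he
  simp only [List.mem_cons, List.not_mem_nil, or_false] at he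
  rcases he with he | he | he | he | he | he | he | he | he | he | he | he | he | he | he | he | he | he | he | he | he | he | he | he | he | he | he
  · rw [he]
    exact bC_aux _ c0 C0 16162295 69 rfl rfl rfl rfl tC0
  · rw [he]
    exact bC_aux _ c1 C1 16345039 134 rfl rfl rfl rfl tC1
  · rw [he]
    exact bC_aux _ c2 C2 16470736 260 rfl rfl rfl rfl tC2
  · rw [he]
    exact bC_aux _ c3 C3 16445475 307 rfl rfl rfl rfl tC3
  · rw [he]
    exact bC_aux _ c4 C4 16547063 485 rfl rfl rfl rfl tC4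
  · rw [he]
    exact bC_aux _ c5 C5 16603251 891 rfl rfl rfl rfl tC5
  · rw [he]
    exact bC_aux _ c6 C6 16633078 1443 rfl rfl rfl rfl tC6
  · rw [he]
    exact bC_aux _ c7 C7 16654975 1702 rfl rfl rfl rfl tC7
  · rw [he]
    exact bC_aux _ c8 C8 16651609 2162 rfl rfl rfl rfl tC8
  · rw [he]
    exact bC_aux _ c9 C9 16701528 3324 rfl rfl rfl rfl tC9
  · rw [he]
    exact bC_aux _ c10 C10 16681954 3327 rfl rfl rfl rfl tC10
  · rw [he]
    exact bC_aux _ c11 C11 16730512 5568 rfl rfl rfl rfl tC11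
  · rw [he]
    exact bC_aux _ c12 C12 16706893 4679 rfl rfl rfl rfl tC12
  · rw [he]
    exact bC_aux _ c13 C13 16747980 8272 rfl rfl rfl rfl tC13
  · rw [he]
    exact bC_aux _ c14 C14 16717285 5580 rfl rfl rfl rfl tC14
  · rw [he]
    exact bC_aux _ c15 C15 16753875 10074 rfl rfl rfl rfl tC15
  · rw [he]
    exact bC_aux _ c16 C16 16726346 6391 rfl rfl rfl rfl tC16
  · rw [he]
    exact bC_aux _ c17 C17 16758327 11696 rfl rfl rfl rfl tC17
  · rw [he]
    exact bC_aux _ c18 C18 16742789 8391 rfl rfl rfl rfl tC18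
  · rw [he]
    exact bC_aux _ c19 C19 16760533 12805 rfl rfl rfl rfl tC19
  · rw [he]
    exact bC_aux _ c20 C20 16746217 9234 rfl rfl rfl rfl tC20
  · rw [he]
    exact bC_aux _ c21 C21 16747565 9693 rfl rfl rfl rfl tC21
  · rw [he]
    exact bC_aux _ c22 C22 16752812 11036 rfl rfl rfl rfl tC22
  · rw [he]
    exact bC_aux _ c23 C23 16753775 11645 rfl rfl rfl rfl tC23
  · rw [he]
    exact bC_aux _ c24 C24 16758381 12989 rfl rfl rfl rfl tC24
  · rw [he]
    exact bC_aux _ c25 C25 16759170 12175 rfl rfl rfl rfl tC25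
  · rw [he]
    exact bC_aux _ c26 C26 16762543 13436 rfl rfl rfl rfl tC26

theorem final_ineq : 4 * 60078 * (1048576 * n0) + 44 * (evs.map Ed.C).sum < 44 * v := by decide +kernel


end Pool.Agent.H529.G
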