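import Pool.Agent.H529.G.Fin0
import Pool.Agent.H529.G.Lev
import Pool.Agent.H529.G.Ev18
import Pool.Agent.H529.G.Ev19
import Pool.Agent.H529.G.Ev20
import Pool.Agent.H529.G.Ev21
import Pool.Agent.H529.G.Ev22
import Pool.Agent.H529.G.Ev23
import Pool.Agent.H529.G.Ev24
import Pool.Agent.H529.G.Ev25
import Pool.Agent.H529.G.Ev26

/-! The events -/

set_option autoImplicit false

open Finset

namespace Pool.Agent.H529.G

open Pool.Agent.H95R2.BG.Cert (look pk nrm)
open Pool.Agent.H529.D Pool.Agent.H529.F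

attribute [local irreducible] LP LM gen genr YY BB AP AM YD ZD vwq wdif

theorem bE_aux (e : Ed) (A B X p1 p2 c : ℕ) (h1 : e.A = A) (h2 : e.B = B) (h3 : e.X = X)
    (h4 : pbl.getD e.l1 0 = p1) (h5 : pbl.getD e.l2 0 = p2) (h6 : e.c = c)
    (h : LP 1536 64 100663296 100661760 16 ph (vwq g A B X) (wdif TM 22 16 3839 432 60078 43 p1 p2) YD ZD ≤
      LM 1536 64 100663296 100661760 16 ph (vwq g A B X) (wdif TM 22 16 3839 432 60078 43 p1 p2) YD ZD + c) :
    LP 1536 64 100663296 100661760 16 ph (vwq g e.A e.B e.X) (wdif TM 22 16 3839 432 60078 43 (pbl.getD e.l1 0) (pbl.getD e.l2 0)) YD ZD ≤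
      LM 1536 64 100663296 100661760 16 ph (vwq g e.A e.B e.X) (wdif TM 22 16 3839 432 60078 43 (pbl.getD e.l1 0) (pbl.getD e.l2 0)) YD ZD + e.c := by
  rw [h1, h2, h3, h4, h5, h6]
  exact h

theorem bE : ∀ e ∈ evs,
    LP 1536 64 100663296 100661760 16 ph (vwq g e.A e.B e.X) (wdif TM 22 16 3839 432 60078 43 (pbl.getD e.l1 0) (pbl.getD e.l2 0)) YD ZD ≤
      LM 1536 64 100663296 100661760 16 ph (vwq g e.A e.B e.X) (wdif TM 22 16 3839 432 60078 43 (pbl.getD e.l1 0) (pbl.getD e.l2 0)) YD ZD + e.c := by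
  intro e he
  unfold evs at he
  simp only [List.mem_cons, List.not_mem_nil, or_false] at he
  rcases he with he | he | he | he | he | he | he | he | he | he | he | he | he | he | he | he | he | he | he | he | he | he | he | he | he | he | he
  · rw [he]
    have h := cv ev0
    exact bE_aux _ A0 B0 78 0 4 c0 rfl rfl rfl rfl rfl rfl h
  · rw [he]
    have h := cv ev1
    exact bE_aux _ A1 B1 108 0 4 c1 rfl rfl rfl rfl rfl rfl h
  · rw [he]
    have h := cv ev2
    exact bE_aux _ A2 B2 156 0 7 c2 rfl rfl rfl rfl rfl rfl h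
  · rw [he]
    have h := cv ev3
    exact bE_aux _ A3 B3 240 4 46 c3 rfl rfl rfl rfl rfl rfl h
  · rw [he]
    have h := cv ev4
    exact bE_aux _ A4 B4 240 0 4 c4 rfl rfl rfl rfl rfl rfl h
  · rw [he]
    have h := cv ev5
    exact bE_aux _ A5 B5 390 0 46 c5 rfl rfl rfl rfl rfl rfl h
  · rw [he]
    have h := cv ev6
    exact bE_aux _ A6 B6 660 7 176 c6 rfl rfl rfl rfl rfl rfl h
  · rw [he]
    have h := cv ev7
    exact bE_aux _ A7 B7 660 0 7 c7 rfl rfl rfl rfl rfl rfl h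
  · rw [he]
    have h := cv ev8
    exact bE_aux _ A8 B8 1201 30 176 c8 rfl rfl rfl rfl rfl rfl h
  · rw [he]
    have h := cv ev9
    exact bE_aux _ A9 B9 1201 0 30 c9 rfl rfl rfl rfl rfl rfl h
  · rw [he]
    have h := cv ev10
    exact bE_aux _ A10 B10 2282 30 176 c10 rfl rfl rfl rfl rfl rfl h
  · rw [he]
    have h := cv ev11
    exact bE_aux _ A11 B11 2282 0 30 c11 rfl rfl rfl rfl rfl rfl h
  · rw [he]
    have h := cv ev12
    exact bE_aux _ A12 B12 4205 30 176 c12 rfl rfl rfl rfl rfl rfl h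
  · rw [he]
    have h := cv ev13
    exact bE_aux _ A13 B13 4205 0 30 c13 rfl rfl rfl rfl rfl rfl h
  · rw [he]
    have h := cv ev14
    exact bE_aux _ A14 B14 6908 30 176 c14 rfl rfl rfl rfl rfl rfl h
  · rw [he]
    have h := cv ev15
    exact bE_aux _ A15 B15 6908 0 30 c15 rfl rfl rfl rfl rfl rfl h
  · rw [he]
    have h := cv ev16
    exact bE_aux _ A16 B16 8711 30 176 c16 rfl rfl rfl rfl rfl rfl h
  · rw [he]
    have h := cv ev17
    exact bE_aux _ A17 B17 8711 0 30 c17 rfl rfl rfl rfl rfl rfl h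
  · rw [he]
    have h := cv ev18
    exact bE_aux _ A18 B18 10333 30 176 c18 rfl rfl rfl rfl rfl rfl h
  · rw [he]
    have h := cv ev19
    exact bE_aux _ A19 B19 10333 0 30 c19 rfl rfl rfl rfl rfl rfl h
  · rw [he]
    have h := cv ev20
    exact bE_aux _ A20 B20 12616 0 176 c20 rfl rfl rfl rfl rfl rfl h
  · rw [he]
    have h := cv ev21
    exact bE_aux _ A21 B21 15620 116 176 c21 rfl rfl rfl rfl rfl rfl h
  · rw [he]
    have h := cv ev22
    exact bE_aux _ A22 B22 15620 0 116 c22 rfl rfl rfl rfl rfl rfl h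
  · rw [he]
    have h := cv ev23
    exact bE_aux _ A23 B23 19224 116 176 c23 rfl rfl rfl rfl rfl rfl h
  · rw [he]
    have h := cv ev24
    exact bE_aux _ A24 B24 19224 0 116 c24 rfl rfl rfl rfl rfl rfl h
  · rw [he]
    have h := cv ev25
    exact bE_aux _ A25 B25 23130 116 176 c25 rfl rfl rfl rfl rfl rfl h
  · rw [he]
    have h := cv ev26
    exact bE_aux _ A26 B26 23130 0 116 c26 rfl rfl rfl rfl rfl rfl h

end Pool.Agent.H529.G
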