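import Pool.Agent.H529.G.Data

namespace Pool.Agent.H529.G

open Pool.Agent.H529.D Pool.Agent.H529.F

theorem k0 : Nat.ble (Nat.add (Nat.add (LM 1536 64 100663296 100661760 16 ph q0 (wpos TM 22 16 3839 432 60078 43 0) YD ZD) (LP 1536 64 100663296 100661760 16 ph q0 (wneg TM 22 16 3839 60078 43 0) YD ZD)) v)
    (Nat.add (LP 1536 64 100663296 100661760 16 ph q0 (wpos TM 22 16 3839 432 60078 43 0) YD ZD) (LM 1536 64 100663296 100661760 16 ph q0 (wneg TM 22 16 3839 60078 43 0) YD ZD)) = true := by decide +kernel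

end Pool.Agent.H529.G
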