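import Pool.Agent.H529.G.Data

namespace Pool.Agent.H529.G

open Pool.Agent.H529.D Pool.Agent.H529.F

theorem kn : Nat.ble (NP 1536 100663296 16 ph q0 h0 h1 100661760) (Nat.add (NM 1536 100663296 16 ph q0 h0 h1 100661760) n0) = true := by decide +kernel

end Pool.Agent.H529.G
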