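import Mathlib
import Pool.Graph.R_seed8.Y826.ZC.Dhl
import Pool.Graph.R_seed8.Y826.ZG.Final
import Pool.Graph.R_seed8.X34.E.E4
import Pool.Agent.H529.C.Comb
import Pool.Agent.H529.D.Box
import Pool.Agent.H529.D.Gen
import Pool.Agent.H529.D.Pack
import Pool.Agent.H529.D.Norm
import Pool.Agent.H529.D.Corr
import Pool.Agent.H529.F.FW
import Pool.Agent.H529.F.FT
import Pool.Agent.H529.F.FLC
import Pool.Agent.H529.F.FX
import Pool.Agent.H529.F.FA
import Pool.Agent.H529.Q.GenQ
import Pool.Agent.H529.Q.AsmQ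
import Pool.Agent.H529.G.Fin1
import Pool.Agent.H529.G.Fin2
import Pool.Agent.H529.G.Fin3
import Pool.Agent.H529.G.ChkY
import Pool.Agent.H529.G.K0
import Pool.Agent.H529.G.KN

/-! `DHL[44,2]` -/

set_option autoImplicit false

open Finset

namespace Pool.Agent.H529.G

open Pool.Agent.H95R2.BG.Cert (look pk nrm)
open Pool.Agent.H529.D Pool.Agent.H529.F

attribute [local irreducible] LP LM NP NM gen genr YY BB AP AM

theorem size1 : 23076660116 ^ 2 < 2 ^ 1536 := by decide +kernel

theorem size2 : (2854613929 ^ 44 + 44 * (23076660116 * 2854613929 ^ 43) + 44 * (4157194501868 * 2854613929 ^ 43) + 1892 * (23076660116 ^ 2 * 2854613929 ^ 42)) *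
    (2 ^ 16 * 16746017424473905488958800974053376) < 2 ^ 1536 := by decide +kernel

theorem hYD : YD = YY 64 16 g ph h0 h1 65536 4194240 := rfl

theorem hZD : ZD = BB 64 16 g h1 65536 4194240 := rfl

set_option maxRecDepth 4000 in
/-- the certificate, for every form of the layered criterion -/
theorem cert (Q : ℕ → Prop) (hQ : Pool.Agent.H529.Q.S_LAYQ Q) : Q 43 := by
  have s1 : 1536 * 2 ^ 16 = 100663296 := by norm_num
  have s2 : 1536 * (2 ^ 16 - 1) = 100661760 := by norm_num
  have s3 : 64 * (2 ^ 16 - 1) = 4194240 := by norm_num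
  have s4 : (2 : ℕ) ^ 16 = 65536 := by norm_num
  refine Pool.Agent.H529.Q.asmQ Q (Pool.Agent.H529.Q.gen_critQ Q) hQ Pool.Agent.H529.C.comb Box.box FW.fw FT.ft flv fcov
    (FX.fx1 Pack.pack Corr.corr Corr.ge Pack.arr) (FX.fx2 Norm.norm44)
    16 60078 61482 16 3839 432 TM 22 3072000 13850932375 39951 1536 64 3078 262144 953 2854613929 23076660116 4157194501868 16746017424473905488958800974053376 1099511627776 4294967296 16777216 n0 v 30 g ph h0 h1 lvls pbl evs
    (by norm_num) (by norm_num) (by norm_num) (by norm_num) (by norm_num) (by norm_num) g_zero (by norm_num)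
    lvl_ok pb_mono pb_zero lvl_tau pb_last1 pb_last2 tm_mono tm_le wnm_le cover ev_lev tilts n_A0 n_A1 n_A2
    (by norm_num) (by norm_num) size1 size2 (by norm_num) (by norm_num) (by norm_num) (by norm_num)
    bounds (by norm_num) (by norm_num) ?_ ?_ ?_ ?_ ?_ bC final_ineq
  · rw [s3, s4]
    have h := cv0 chkY
    exact h
  · rw [s3, s4, ← hYD, ← hZD]
    have h := cv0 chkZ
    exact h
  · rw [s1, s2, s3, s4, ← hYD, ← hZD]
    have h := cv3 k0
    exact h
  · rw [s1, s2]
    have h := cv kn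
    exact h
  · rw [s1, s2, s3, s4, ← hYD, ← hZD]
    exact bE

/-- `DHL[44,2]` with a count and a residue class -/
theorem dhl44 : Dhl44Count := cert Pool.Agent.H529.Q.QN Pool.Agent.Y826.ZC.s_lay

/-- `DHL[44,2]` for linear forms -/
theorem dhl44L : Pool.Agent.H529.Q.Dhl44L := cert Pool.Agent.H529.Q.QL Pool.Agent.Y826.ZG.s_layl

/-- `DHL[44,2]` for linear forms without small prime factors, right order of magnitude -/
theorem dhl44R : Pool.Agent.H529.Q.Dhl44R :=
  cert Pool.Agent.H529.Q.QR (Pool.Agent.X34.E.layr (Pool.Agent.X34.E.critr (Pool.Agent.Y826.ZG.p2l Pool.Agent.Y826.ZG.s_zz)))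

end Pool.Agent.H529.G
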